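import Pool.Agent.helper65.GD.SpecF

set_option autoImplicit false

namespace Pool.Agent.GD

open Finset Metric Filter Topology Complex

theorem XT1_re (x y z : ℂ) (hx : ‖x‖ = 1) (hy : ‖y‖ = 1) :
    ((1 - x * z) * (starRingEnd ℂ) (1 - y * z) * (starRingEnd ℂ) (1 - x * (starRingEnd ℂ) y)).re =
      (1 - normSq z) * (1 - (x * (starRingEnd ℂ) y).re) := by
  have h1 : normSq x = 1 := by rw [normSq_eq_norm_sq, hx]; norm_num
  have h2 : normSq y = 1 := by rw [normSq_eq_norm_sq, hy]; norm_num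
  rw [normSq_apply] at h1 h2
  rw [normSq_apply]
  simp only [mul_re, mul_im, sub_re, sub_im, one_re, one_im, conj_re, conj_im, map_sub, map_mul, map_one]
  obtain ⟨a, b⟩ := x
  obtain ⟨c, d⟩ := y
  obtain ⟨e, f⟩ := z
  simp only at h1 h2 ⊢
  have hb : b * b = 1 - a * a := by linarith
  have hd : d * d = 1 - c * c := by linarith
  ring_nf
  have hb' : b ^ 2 = 1 - a ^ 2 := by nlinarith
  have hd' : d ^ 2 = 1 - c ^ 2 := by nlinarith
  simp only [hb', hd']
  ring

theorem XT1_arg (p r s : ℂ) (hp : 0 < p.re) (hr : 0 < r.re) (hs : 0 < s.re)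
    (h : 0 < (p * (starRingEnd ℂ) r * (starRingEnd ℂ) s).re) :
    |arg p - arg r - arg s| < Real.pi / 2 := by
  have h1 : |arg p| < Real.pi / 2 := abs_arg_lt_pi_div_two_iff.2 (Or.inl hp)
  have h2 : |arg r| < Real.pi / 2 := abs_arg_lt_pi_div_two_iff.2 (Or.inl hr)
  have h3 : |arg s| < Real.pi / 2 := abs_arg_lt_pi_div_two_iff.2 (Or.inl hs)
  have e1 : p * (starRingEnd ℂ) r * (starRingEnd ℂ) s =
      ((‖p‖ * ‖r‖ * ‖s‖ : ℝ) : ℂ) * Complex.exp (((arg p - arg r - arg s : ℝ) : ℂ) * I) := by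
    have a1 := norm_mul_exp_arg_mul_I p
    have a2 : (‖r‖ : ℂ) * Complex.exp (-(arg r) * I) = (starRingEnd ℂ) r := by
      conv_rhs => rw [← norm_mul_exp_arg_mul_I r]
      rw [map_mul, conj_ofReal, ← exp_conj, map_mul, conj_ofReal, conj_I]
      congr 2
      ring
    have a3 : (‖s‖ : ℂ) * Complex.exp (-(arg s) * I) = (starRingEnd ℂ) s := by
      conv_rhs => rw [← norm_mul_exp_arg_mul_I s]
      rw [map_mul, conj_ofReal, ← exp_conj, map_mul, conj_ofReal, conj_I]
      congr 2
      ring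
    rw [← a2, ← a3]
    conv_lhs => rw [← a1]
    have a4 : (((arg p - arg r - arg s : ℝ) : ℂ) * I) = (arg p : ℂ) * I + (-(arg r : ℂ) * I) + (-(arg s : ℂ) * I) := by
      push_cast
      ring
    rw [a4, Complex.exp_add, Complex.exp_add]
    push_cast
    ring
  rw [e1, re_ofReal_mul, exp_ofReal_mul_I_re] at h
  by_contra hc
  rw [not_lt] at hc
  have h4 : |arg p - arg r - arg s| ≤ Real.pi + Real.pi / 2 := by
    rw [abs_lt] at h1 h2 h3
    rw [abs_le]
    constructor <;> linarith [h1.1, h1.2, h2.1, h2.2, h3.1, h3.2]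
  have h5 := Real.cos_nonpos_of_pi_div_two_le_of_le hc h4
  rw [Real.cos_abs] at h5
  have h6 : 0 ≤ ‖p‖ * ‖r‖ * ‖s‖ := by positivity
  have h7 := mul_nonpos_of_nonneg_of_nonpos h6 h5
  linarith

theorem XT1_pos (x z : ℂ) (hx : ‖x‖ = 1) (hz : ‖z‖ < 1) : 0 < (1 - x * z).re := by
  have h1 : (x * z).re ≤ ‖x * z‖ := re_le_norm _
  rw [norm_mul, hx, one_mul] at h1
  rw [sub_re, one_re]
  linarith

theorem XT1 : XT1_stmt := by
  intro x y hx hy
  by_cases hxy : x = y
  · refine ⟨0, fun z _ => ?_⟩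
    rw [hxy, sub_self, zero_im, sub_zero, abs_zero]
    exact Real.pi_div_two_pos
  · refine ⟨arg (1 - x * (starRingEnd ℂ) y), fun z hz => ?_⟩
    have hz1 : ‖z‖ < 1 := by rwa [mem_ball_zero_iff] at hz
    have hc1 : ‖x * (starRingEnd ℂ) y‖ = 1 := by
      rw [norm_mul, RCLike.norm_conj, hx, hy, one_mul]
    have hre : (x * (starRingEnd ℂ) y).re < 1 := by
      rcases lt_or_eq_of_le ((re_le_norm (x * (starRingEnd ℂ) y)).trans hc1.le) with h | h
      · exact h
      · exfalso
        apply hxy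
        have h1 : normSq (x * (starRingEnd ℂ) y) = 1 := by rw [normSq_eq_norm_sq, hc1]; norm_num
        rw [normSq_apply, h] at h1
        have him : (x * (starRingEnd ℂ) y).im = 0 := by
          have : (x * (starRingEnd ℂ) y).im * (x * (starRingEnd ℂ) y).im = 0 := by linarith
          exact mul_self_eq_zero.1 this
        have h2 : x * (starRingEnd ℂ) y = 1 := Complex.ext (by rw [h, one_re]) (by rw [him, one_im])
        have h3 : (starRingEnd ℂ) y * y = 1 := by
          rw [mul_comm, mul_conj, normSq_eq_norm_sq, hy]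
          norm_num
        calc x = x * ((starRingEnd ℂ) y * y) := by rw [h3, mul_one]
          _ = (x * (starRingEnd ℂ) y) * y := by ring
          _ = y := by rw [h2, one_mul]
    rw [sub_im, log_im, log_im]
    refine XT1_arg _ _ _ (XT1_pos x z hx hz1) (XT1_pos y z hy hz1) ?_ ?_
    · rw [sub_re, one_re]
      linarith
    · rw [XT1_re x y z hx hy]
      refine mul_pos ?_ (by linarith)
      have : normSq z < 1 := by
        rw [normSq_eq_norm_sq]
        have h0 := norm_nonneg z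
        nlinarith
      linarith

end Pool.Agent.GD
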